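import Pool.Agent.FN.Defs

/-! # Short relations over arbitrary numbers: definitions -/

namespace Pool.Agent.FNX

open MvPolynomial Pool.Agent.FN

variable {K L : Type} [Field K] [Field L] [Algebra K L]

/-- `b` is a differential specialization of `a` -/
def Spz (δ : Derivation K L L) {N : ℕ} (a b : Fin N → L) : Prop :=
  ∀ Φ : MvPolynomial (Fin N × ℕ) K, aeval (jet δ a) Φ = 0 → aeval (jet δ b) Φ = 0

/-- a relation of degree and order `≤ D` between the jets, which holds at `b` and not at `a` -/
def RelV (δ : Derivation K L L) (D : ℕ) {N : ℕ} (a b : Fin N → L) : Prop :=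
  ∃ Φ : MvPolynomial (Fin N × ℕ) K, Bdd D Φ ∧ aeval (jet δ a) Φ ≠ 0 ∧ aeval (jet δ b) Φ = 0

/-- over every tuple there are generic tuples of every length -/
def Uni (δ : Derivation K L L) : Prop :=
  ∀ (k l : ℕ) (x : Fin k → L), ∃ z : Fin l → L, ∀ y : Fin l → L,
    Spz δ (Fin.append x z) (Fin.append x y)

end Pool.Agent.FNX
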