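import Pool.Agent.FN.Poly
import Pool.Agent.FNX.Defs

/-! # Elimination of a polynomial step, values -/

namespace Pool.Agent.FNX

open MvPolynomial Pool.Agent.FN

variable {K L : Type} [Field K] [Field L] [Algebra K L]

theorem RelV.mono {δ : Derivation K L L} {D E N : ℕ} {a b : Fin N → L} (h : D ≤ E)
    (hr : RelV δ D a b) : RelV δ E a b := by
  obtain ⟨Φ, h1, h2, h3⟩ := hr
  exact ⟨Φ, Bdd.mono h h1, h2, h3⟩

/-- the substitution of a polynomial for the last variable -/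
theorem subst_last {N : ℕ} (D e : ℕ) {K : Type} [Field K] (q : MvPolynomial (Fin N) K)
    (hq : q.totalDegree ≤ e) (Φ : MvPolynomial (Fin (N + 1) × ℕ) K) (h1 : Bdd D Φ) :
    ∃ Φ' : MvPolynomial (Fin N × ℕ) K, Bdd (D * (e + D + 1)) Φ' ∧
      ∀ {L : Type} [Field L] [Algebra K L] (δ : Derivation K L L) (a : Fin N → L),
        aeval (jet δ a) Φ' = aeval (jet δ (Fin.snoc a (aeval a q) : Fin (N + 1) → L)) Φ := by
  obtain ⟨θ, hθ⟩ : ∃ θ : Fin (N + 1) × ℕ → MvPolynomial (Fin N × ℕ) K, θ = fun v =>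
      (Fin.snoc (fun i : Fin N => (X (i, v.2) : MvPolynomial (Fin N × ℕ) K))
        ((sh K N)^[v.2] (up q)) : Fin (N + 1) → MvPolynomial (Fin N × ℕ) K) v.1 := ⟨_, rfl⟩
  refine ⟨aeval θ Φ, Bdd.subst Φ θ h1 fun v hv => ?_, fun {L} _ _ δ a => ?_⟩
  · obtain ⟨i, a⟩ := v
    simp only at hv
    rw [hθ]
    simp only
    refine Fin.lastCases ?_ (fun i => ?_) i
    · rw [Fin.snoc_last]
      exact Bdd.mono (by omega) (Bdd.iter a (bdd_up hq))
    · rw [Fin.snoc_castSucc]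
      exact Bdd.X _ (by simp only; omega) (by omega)
  · have key : ∀ v, aeval (jet δ a) (θ v) =
        jet δ (Fin.snoc a (aeval a q) : Fin (N + 1) → L) v := by
      rintro ⟨i, c⟩
      rw [hθ]
      simp only [jet]
      refine Fin.lastCases ?_ (fun i => ?_) i
      · rw [Fin.snoc_last, Fin.snoc_last, sh_iter_jet, aeval_jet_up]
      · rw [Fin.snoc_castSucc, Fin.snoc_castSucc, aeval_X]
        rfl
    rw [comp_aeval_apply, funext key]

theorem rel_polyV (D e N : ℕ) : ∃ D' : ℕ, ∀ {K L : Type} [Field K] [Field L] [Algebra K L]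
    (δ : Derivation K L L) (a b : Fin N → L) (q : MvPolynomial (Fin N) K), q.totalDegree ≤ e →
      RelV δ D (Fin.snoc a (aeval a q) : Fin (N + 1) → L) (Fin.snoc b (aeval b q)) →
        RelV δ D' a b := by
  refine ⟨D * (e + D + 1), fun {K L} _ _ _ δ a b q hq h => ?_⟩
  obtain ⟨Φ, h1, h2, h3⟩ := h
  obtain ⟨Φ', g1, g2⟩ := subst_last D e q hq Φ h1
  exact ⟨Φ', g1, by rw [g2]; exact h2, by rw [g2]; exact h3⟩

end Pool.Agent.FNX
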