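import Pool.Agent.FN.Pow
import Pool.Agent.FNX.Poly2

/-! # Elimination of one power, values -/

namespace Pool.Agent.FNX

open MvPolynomial Pool.Agent.FN

/-- the expansion in powers of `a i ^ m`, the same for all values -/
theorem full_expV {K : Type} [Field K] {N D : ℕ} (i : Fin N) (m : ℕ)
    (Φ : MvPolynomial (Fin (N + 1) × ℕ) K) (hΦ : Bdd D Φ) :
    ∃ R : ℕ → MvPolynomial (Fin N × ℕ) K, (∀ b, Bdd (D * (2 * D + 2)) (R b)) ∧
      ∀ {L : Type} [Field L] [Algebra K L] (δ : Derivation K L L) (a : Fin N → L),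
        ∑ b : Fin (D + 1), (a i ^ m) ^ (b : ℕ) * aeval (jet δ a) (R b) =
          a i ^ (D * D) * aeval (jet δ (Fin.snoc a (a i ^ m) : Fin (N + 1) → L)) Φ := by
  obtain ⟨R, hR, hsum⟩ := full_exp (sh K N) (fun j : Fin N => (X (j, 0) : MvPolynomial (Fin N × ℕ) K))
    i m Φ hΦ
  have hX : jet (sh K N) (fun j : Fin N => (X (j, 0) : MvPolynomial (Fin N × ℕ) K)) = X := by
    funext v
    rw [jet, sh_iter_X, zero_add]
  refine ⟨R, hR, fun {L} _ _ δ a => ?_⟩
  have h1 := congrArg (aeval (jet δ a) : MvPolynomial (Fin N × ℕ) K →ₐ[K] L) hsum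
  rw [map_sum, map_mul, map_pow, aeval_X] at h1
  have h2 : aeval (jet δ a) (aeval (jet (sh K N) (Fin.snoc
      (fun j : Fin N => (X (j, 0) : MvPolynomial (Fin N × ℕ) K)) (X (i, 0) ^ m) :
        Fin (N + 1) → MvPolynomial (Fin N × ℕ) K)) Φ) =
      aeval (jet δ (Fin.snoc a (a i ^ m) : Fin (N + 1) → L)) Φ := by
    rw [comp_aeval_apply]
    congr 1
    congr 1
    funext v
    obtain ⟨j, c⟩ := v
    refine Fin.lastCases ?_ (fun j => ?_) j
    · simp only [jet, Fin.snoc_last]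
      rw [sh_iter_jet, map_pow, aeval_X]
      rfl
    · simp only [jet, Fin.snoc_castSucc]
      rw [sh_iter_X, zero_add, aeval_X]
      rfl
  rw [h2] at h1
  have h3 : jet δ a (i, 0) = a i := rfl
  rw [h3] at h1
  rw [← h1]
  refine Finset.sum_congr rfl fun b _ => ?_
  rw [map_mul, map_pow, map_pow, aeval_X, h3, hX, aeval_X_left_apply]

theorem rel_powV (D N : ℕ) : ∃ D' : ℕ, ∀ {K L : Type} [Field K] [Field L] [Algebra K L]
    [CharZero K] (δ : Derivation K L L), CK δ → ∀ (a b : Fin N → L), Spz δ a b →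
    ∀ (i : Fin N) (m : ℕ),
      RelV δ D (Fin.snoc a (a i ^ m) : Fin (N + 1) → L) (Fin.snoc b (b i ^ m)) →
        RelV δ D' a b := by
  classical
  obtain ⟨D0, hD0⟩ := rel_polyV D 0 N
  refine ⟨max D0 ((D + 1) * (D * (2 * D + 2) + 2 * D) + 1), ?_⟩
  intro K L _ _ _ _ δ hδ a b hab i m h
  by_cases ha : a i = 0
  · -- the new entry is a constant
    have hb : b i = 0 := by
      have h1 := hab (X (i, 0)) (by rw [aeval_X]; exact ha)
      rwa [aeval_X] at h1
    refine (hD0 δ a b (C (0 ^ m)) (by rw [totalDegree_C]) ?_).mono (le_max_left _ _)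
    rw [aeval_C, aeval_C, map_pow, map_zero]
    rw [ha, hb] at h
    exact h
  obtain ⟨Φ, hΦ, hne, h0⟩ := h
  refine RelV.mono (le_max_right _ _) ?_
  by_cases hb : b i = 0
  · refine ⟨X (i, 0), Bdd.X _ (by simp) (by omega), ?_, ?_⟩
    · rw [aeval_X]; exact ha
    · rw [aeval_X]; exact hb
  obtain ⟨R, hR, hsum⟩ := full_expV i m Φ hΦ
  obtain ⟨r, e, c, hind, hc⟩ := subfam (K := K)
    (fun j : Fin (D + 1) => (a i ^ m) ^ (j : ℕ) * aeval (jet δ a) (R j))
  have hr : r ≤ D + 1 := by simpa using Fintype.card_le_of_embedding e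
  -- the relation at `b`
  have hcb : ∑ k, c k • ((b i ^ m) ^ ((e k : Fin (D + 1)) : ℕ) * aeval (jet δ b) (R (e k))) =
      ∑ j : Fin (D + 1), (b i ^ m) ^ (j : ℕ) * aeval (jet δ b) (R j) := by
    have h1 : ∀ y : Fin N → L, aeval (jet δ y) (∑ k, c k •
        (((X (i, 0) : MvPolynomial (Fin N × ℕ) K) ^ m) ^ ((e k : Fin (D + 1)) : ℕ) * R (e k)) -
          ∑ j : Fin (D + 1), ((X (i, 0) : MvPolynomial (Fin N × ℕ) K) ^ m) ^ (j : ℕ) * R j) =
        ∑ k, c k • ((y i ^ m) ^ ((e k : Fin (D + 1)) : ℕ) * aeval (jet δ y) (R (e k))) -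
          ∑ j : Fin (D + 1), (y i ^ m) ^ (j : ℕ) * aeval (jet δ y) (R j) := by
      intro y
      have h3 : jet δ y (i, 0) = y i := rfl
      rw [map_sub, map_sum, map_sum]
      congr 1
      · refine Finset.sum_congr rfl fun k _ => ?_
        rw [map_smul, map_mul, map_pow, map_pow, aeval_X, h3]
      · refine Finset.sum_congr rfl fun k _ => ?_
        rw [map_mul, map_pow, map_pow, aeval_X, h3]
    have h2 := hab _ ((h1 a).trans (by rw [hc, sub_self]))
    rw [h1] at h2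
    exact sub_eq_zero.1 h2
  rw [hsum] at hc hcb
  rw [h0, mul_zero] at hcb
  have hc0 : ∃ k, c k ≠ 0 := by
    by_contra hcon
    push Not at hcon
    have : a i ^ (D * D) * aeval (jet δ (Fin.snoc a (a i ^ m) : Fin (N + 1) → L)) Φ = 0 := by
      rw [← hc]
      refine Finset.sum_eq_zero fun k _ => ?_
      rw [hcon k, zero_smul]
    exact (mul_ne_zero (pow_ne_zero _ ha) hne) this
  obtain ⟨Q, hQ⟩ : ∃ Q : Matrix (Fin r) (Fin r) (MvPolynomial (Fin N × ℕ) K),
      Q = Matrix.of fun j k : Fin r => qP i (m * (e k : ℕ)) (R (e k)) (j : ℕ) := ⟨_, rfl⟩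
  have hrc : ∀ y : Fin N → L, (∏ j : Fin r, y i ^ (j : ℕ)) * (Matrix.of fun j k : Fin r =>
      δ^[(j : ℕ)] ((y i ^ m) ^ ((e k : Fin (D + 1)) : ℕ) * aeval (jet δ y) (R (e k)))).det =
      (∏ k : Fin r, (y i ^ m) ^ ((e k : Fin (D + 1)) : ℕ)) * aeval (jet δ y) Q.det := by
    intro y
    have h1 : aeval (jet δ y) Q.det = (Matrix.of fun j k : Fin r =>
        aeval (jet δ y) (qP i (m * (e k : ℕ)) (R (e k)) j)).det := by
      rw [AlgHom.map_det, hQ]
      congr 1
    rw [h1]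
    refine det_rc _ _ _ _ fun j k => ?_
    simp only [Matrix.of_apply]
    exact qP_ev δ y i m (e k) (R (e k)) j
  refine ⟨Q.det, ?_, ?_, ?_⟩
  · have h1 : Bdd (r * (D * (2 * D + 2) + 2 * D)) Q.det := by
      refine Bdd.det _ fun j k => ?_
      rw [hQ]
      simp only [Matrix.of_apply]
      refine (qP_bdd i _ (hR (e k)) j).mono ?_
      have := j.2
      omega
    refine h1.mono ?_
    exact (Nat.mul_le_mul_right _ hr).trans (Nat.le_succ _)
  · intro h1
    have h2 := hrc a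
    rw [h1, mul_zero] at h2
    rcases mul_eq_zero.1 h2 with h3 | h3
    · exact (Finset.prod_ne_zero_iff.2 fun j _ => pow_ne_zero _ ha) h3
    · exact wr_ne_zero δ hδ _ hind h3
  · have h2 := hrc b
    rw [det_zero δ _ c hc0 hcb, mul_zero] at h2
    rcases mul_eq_zero.1 h2.symm with h3 | h3
    · exfalso
      obtain ⟨k, _, hk⟩ := Finset.prod_eq_zero_iff.1 h3
      exact hb (pow_eq_zero_iff'.1 (pow_eq_zero_iff'.1 hk).1).1
    · exact h3

end Pool.Agent.FNX
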