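import Pool.Agent.FN.Prog
import Pool.Agent.FNX.Pow2

/-! # Relations computed by straight-line programs with arbitrary powers, values -/

namespace Pool.Agent.FNX

open MvPolynomial Pool.Agent.FN

variable {K L : Type} [Field K] [Field L] [Algebra K L]

/-- the values of the variables and of the polynomials of the program -/
noncomputable def val {n : ℕ} (p : Fin n → L) : (l : List (MvPolynomial (Fin n) K)) →
    Fin (n + l.length) → L
  | [] => p
  | P :: l => (Fin.snoc (val p l) (aeval p P) : Fin (n + l.length + 1) → L)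

theorem val_var {n : ℕ} (l : List (MvPolynomial (Fin n) K)) (i : Fin n) :
    ∃ j, ∀ p : Fin n → L, val p l j = p i := by
  induction l with
  | nil => exact ⟨i, fun p => rfl⟩
  | cons P l ih =>
    obtain ⟨j, hj⟩ := ih
    refine ⟨Fin.castSucc j, fun p => ?_⟩
    rw [← hj p]
    exact Fin.snoc_castSucc (α := fun _ => L) (aeval p P) (val p l) j

theorem val_mem {n : ℕ} (l : List (MvPolynomial (Fin n) K)) {P : MvPolynomial (Fin n) K}
    (h : P ∈ l) : ∃ j, ∀ p : Fin n → L, val p l j = aeval p P := by
  induction l with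
  | nil => simp at h
  | cons Q l ih =>
    rcases List.mem_cons.1 h with rfl | h1
    · exact ⟨Fin.last _, fun p => Fin.snoc_last (α := fun _ => L) _ _⟩
    · obtain ⟨j, hj⟩ := ih h1
      refine ⟨Fin.castSucc j, fun p => ?_⟩
      rw [← hj p]
      exact Fin.snoc_castSucc (α := fun _ => L) (aeval p Q) (val p l) j

/-- the values of a program specialize -/
theorem spz_val {δ : Derivation K L L} {n : ℕ} {p q : Fin n → L} (h : Spz δ p q)
    (l : List (MvPolynomial (Fin n) K)) : Spz δ (val p l) (val q l) := by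
  -- the entries as polynomials
  have hu : ∃ u : Fin (n + l.length) → MvPolynomial (Fin n) K,
      ∀ p : Fin n → L, val p l = fun j => aeval p (u j) := by
    induction l with
    | nil =>
      refine ⟨fun i => X i, fun p => ?_⟩
      funext i
      rw [aeval_X]
      rfl
    | cons P l ih =>
      obtain ⟨u, hu⟩ := ih
      refine ⟨(Fin.snoc u P : Fin (n + l.length + 1) → MvPolynomial (Fin n) K), fun p => ?_⟩
      have key : ∀ j : Fin (n + l.length + 1),
          (Fin.snoc (val p l) (aeval p P) : Fin (n + l.length + 1) → L) j =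
            aeval p ((Fin.snoc u P : Fin (n + l.length + 1) → MvPolynomial (Fin n) K) j) := by
        intro j
        refine Fin.lastCases ?_ (fun j => ?_) j
        · rw [Fin.snoc_last, Fin.snoc_last]
        · rw [Fin.snoc_castSucc, Fin.snoc_castSucc, hu]
      exact funext key
  obtain ⟨u, hu⟩ := hu
  intro Φ hΦ
  have h1 : ∀ p : Fin n → L, aeval (jet δ (val p l)) Φ =
      aeval (jet δ p) (aeval (fun v => (sh K n)^[v.2] (up (u v.1))) Φ) := by
    intro p
    rw [comp_aeval_apply]
    congr 1
    congr 1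
    funext v
    rw [sh_iter_jet, aeval_jet_up, hu]
    rfl
  rw [h1] at hΦ ⊢
  exact h _ hΦ

/-- one step of a program -/
theorem step_elimV (D n N : ℕ) : ∃ D' : ℕ, ∀ {K L : Type} [Field K] [Field L] [Algebra K L]
    [CharZero K] (δ : Derivation K L L), CK δ → ∀ (p q : Fin n → L), Spz δ p q →
      ∀ (P : MvPolynomial (Fin n) K) (l : List (MvPolynomial (Fin n) K)), l.length = N →
        Prog (P :: l) → RelV δ D (val p (P :: l)) (val q (P :: l)) →
          RelV δ D' (val p l) (val q l) := by
  obtain ⟨D1, h1⟩ := rel_polyV D 2 (n + N)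
  obtain ⟨D2, h2⟩ := rel_powV D (n + N)
  refine ⟨max D1 D2, fun {K L} _ _ _ _ δ hδ p q hpq P l hl hp h => ?_⟩
  subst hl
  have hpoly : ∀ f : MvPolynomial (Fin (n + l.length)) K, f.totalDegree ≤ 2 →
      aeval p P = aeval (val p l) f → aeval q P = aeval (val q l) f →
        RelV δ (max D1 D2) (val p l) (val q l) := by
    intro f hf he he'
    refine (h1 δ (val p l) (val q l) f hf ?_).mono (le_max_left _ _)
    rw [← he, ← he']
    exact h
  have hX1 : ∀ j : Fin (n + l.length), (X j : MvPolynomial (Fin (n + l.length)) K).totalDegree ≤ 1 :=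
    fun j => by rw [totalDegree_X]
  cases hp with
  | var _ i _ =>
    obtain ⟨j, hj⟩ := val_var (L := L) l i
    refine hpoly (X j) ((hX1 j).trans (by norm_num)) ?_ ?_
    · rw [aeval_X, aeval_X, hj]
    · rw [aeval_X, aeval_X, hj]
  | const _ c _ =>
    refine hpoly (C c) (by rw [totalDegree_C]; exact Nat.zero_le _) ?_ ?_
    · rw [aeval_C, aeval_C]
    · rw [aeval_C, aeval_C]
  | add _ A B hA hB _ =>
    obtain ⟨i, hi⟩ := val_mem (L := L) l hA
    obtain ⟨j, hj⟩ := val_mem (L := L) l hB
    refine hpoly (X i + X j) ((totalDegree_add _ _).trans (max_le ((hX1 i).trans (by norm_num))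
      ((hX1 j).trans (by norm_num)))) ?_ ?_
    · rw [map_add, map_add, aeval_X, aeval_X, hi, hj]
    · rw [map_add, map_add, aeval_X, aeval_X, hi, hj]
  | mul _ A B hA hB _ =>
    obtain ⟨i, hi⟩ := val_mem (L := L) l hA
    obtain ⟨j, hj⟩ := val_mem (L := L) l hB
    refine hpoly (X i * X j) ((totalDegree_mul _ _).trans (by
      have := hX1 i
      have := hX1 j
      omega)) ?_ ?_
    · rw [map_mul, map_mul, aeval_X, aeval_X, hi, hj]
    · rw [map_mul, map_mul, aeval_X, aeval_X, hi, hj]
  | pow _ A m hA _ =>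
    obtain ⟨i, hi⟩ := val_mem (L := L) l hA
    refine (h2 δ hδ (val p l) (val q l) (spz_val hpq l) i m ?_).mono (le_max_right _ _)
    rw [hi, hi, ← map_pow, ← map_pow]
    exact h

theorem prog_elimV (n m : ℕ) : ∀ D : ℕ, ∃ D' : ℕ, ∀ {K L : Type} [Field K] [Field L]
    [Algebra K L] [CharZero K] (δ : Derivation K L L), CK δ → ∀ (p q : Fin n → L), Spz δ p q →
      ∀ (l : List (MvPolynomial (Fin n) K)), l.length = m → Prog l →
        RelV δ D (val p l) (val q l) → RelV δ D' p q := by
  induction m with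
  | zero =>
    intro D
    refine ⟨D, fun {K L} _ _ _ _ δ hδ p q hpq l hl hp h => ?_⟩
    obtain rfl := List.length_eq_zero_iff.1 hl
    exact h
  | succ m ih =>
    intro D
    obtain ⟨D1, h1⟩ := step_elimV D n m
    obtain ⟨D2, h2⟩ := ih D1
    refine ⟨D2, fun {K L} _ _ _ _ δ hδ p q hpq l hl hp h => ?_⟩
    cases l with
    | nil => simp at hl
    | cons P l =>
      have hl' : l.length = m := by simpa using hl
      refine h2 δ hδ p q hpq l hl' ?_ (h1 δ hδ p q hpq P l hl' hp h)
      cases hp <;> assumption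

theorem progV (n s : ℕ) : ∃ D : ℕ, ∀ {K L : Type} [Field K] [Field L] [Algebra K L]
    [CharZero K] (δ : Derivation K L L), CK δ → ∀ (p q : Fin n → L), Spz δ p q →
      ∀ l : List (MvPolynomial (Fin n) K), Prog l → l.length ≤ s → ∀ P ∈ l, aeval p P ≠ 0 →
        aeval q P = 0 → RelV δ D p q := by
  choose D hD using fun m => prog_elimV n m 1
  refine ⟨∑ m ∈ Finset.range (s + 1), D m,
    fun {K L} _ _ _ _ δ hδ p q hpq l hp hl P hP hP0 hq => ?_⟩
  obtain ⟨j, hj⟩ := val_mem (L := L) l hP
  have h1 : RelV δ 1 (val p l) (val q l) := by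
    refine ⟨X (j, 0), Bdd.X _ (Nat.zero_le _) le_rfl, ?_, ?_⟩
    · rw [aeval_X]
      change val p l j ≠ 0
      rw [hj]
      exact hP0
    · rw [aeval_X]
      change val q l j = 0
      rw [hj, hq]
  refine (hD l.length δ hδ p q hpq l rfl hp h1).mono ?_
  exact Finset.single_le_sum (f := D) (fun _ _ => Nat.zero_le _)
    (Finset.mem_range.2 (Nat.lt_succ_of_le hl))

end Pool.Agent.FNX
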