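import Pool.Agent.FNX.Defs
import Pool.Agent.FN.Der

/-! # One derivation of the complex numbers with generic tuples over every tuple -/

namespace Pool.Agent.FNX

open Set Cardinal MvPolynomial Pool.Agent.FN

/-- jets of the old tuple are algebraic over a small part of the basis, jets of the new tuple are
independent over it: the new tuple is generic over the old one -/
theorem spz_of_basis {K : Type} [Field K] [Algebra K ℂ] [CharZero K] {κ : Type} (B : κ × ℕ → ℂ)
    (hB : IsTranscendenceBasis K B) (δ : Derivation K ℂ ℂ)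
    (hδ : ∀ v : κ × ℕ, δ (B v) = B (v.1, v.2 + 1)) (T : Set κ) {k l : ℕ} (x : Fin k → ℂ)
    (hx : ∀ j, IsAlgebraic (Algebra.adjoin K (B '' {v | v.1 ∈ T})) (x j)) (b : Fin l → κ)
    (hb : ∀ i, b i ∉ T) (hbi : Function.Injective b) (y : Fin l → ℂ) :
    Spz δ (Fin.append x fun i => B (b i, 0)) (Fin.append x y) := by
  classical
  let M0 : Set (κ × ℕ) := {v | v.1 ∈ T}
  let R0 : Subalgebra K ℂ := Algebra.adjoin K (B '' M0)
  let S0 : Subalgebra R0 ℂ := Subalgebra.algebraicClosure R0 ℂ
  have h1 : AlgebraicIndependent R0 (fun i : (M0ᶜ : Set (κ × ℕ)) => B i) :=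
    hB.1.adjoin_of_disjoint disjoint_compl_right
  have h2 : AlgebraicIndependent S0 (fun i : (M0ᶜ : Set (κ × ℕ)) => B i) :=
    h1.subalgebraAlgebraicClosure
  have h3 : AlgebraicIndependent S0 (fun v : Fin l × ℕ => B (b v.1, v.2)) := by
    refine h2.comp (fun v : Fin l × ℕ => ⟨(b v.1, v.2), hb v.1⟩) ?_
    intro v w hvw
    simp only [Subtype.mk.injEq, Prod.mk.injEq] at hvw
    exact Prod.ext (hbi hvw.1) hvw.2
  have hit : ∀ (a : κ) (i : ℕ), δ^[i] (B (a, 0)) = B (a, i) := by
    intro a i
    induction i with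
    | zero => rfl
    | succ i ih => rw [Function.iterate_succ_apply', ih, hδ]
  have hxS : ∀ (j : Fin k) (i : ℕ), IsAlgebraic R0 (δ^[i] (x j)) := by
    intro j i
    induction i with
    | zero => exact hx j
    | succ i ih =>
      rw [Function.iterate_succ_apply']
      refine der_alg δ (S := B '' M0) (T := B '' M0) ?_ ?_ ih
      · intro a ha
        exact isAlgebraic_algebraMap (⟨a, Algebra.subset_adjoin ha⟩ : Algebra.adjoin K (B '' M0))
      · rintro a ⟨v, hv, rfl⟩
        rw [hδ]
        exact isAlgebraic_algebraMap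
          (⟨B (v.1, v.2 + 1), Algebra.subset_adjoin ⟨(v.1, v.2 + 1), hv, rfl⟩⟩ :
            Algebra.adjoin K (B '' M0))
  let θ : Fin (k + l) × ℕ → MvPolynomial (Fin l × ℕ) S0 := fun v =>
    Fin.addCases (motive := fun _ => MvPolynomial (Fin l × ℕ) S0)
      (fun j => C ⟨δ^[v.2] (x j), hxS j v.2⟩) (fun j => X (j, v.2)) v.1
  have key : ∀ (w : Fin l → ℂ) (Φ : MvPolynomial (Fin (k + l) × ℕ) K),
      aeval (jet δ (Fin.append x w)) Φ = aeval (R := S0) (jet δ w) (aeval θ Φ) := by
    intro w Φ
    have h4 : (aeval (jet δ (Fin.append x w)) : MvPolynomial (Fin (k + l) × ℕ) K →ₐ[K] ℂ) =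
        ((aeval (R := S0) (jet δ w)).restrictScalars K).comp (aeval θ) := by
      refine MvPolynomial.algHom_ext fun v => ?_
      obtain ⟨v, i⟩ := v
      rw [aeval_X, AlgHom.comp_apply, aeval_X]
      refine Fin.addCases (fun j => ?_) (fun j => ?_) v
      · simp only [θ, Fin.addCases_left, jet, Fin.append_left]
        change _ = aeval (R := S0) (jet δ w) (C _)
        rw [aeval_C]
        rfl
      · simp only [θ, Fin.addCases_right, jet, Fin.append_right]
        change _ = aeval (R := S0) (jet δ w) (X _)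
        rw [aeval_X]
        rfl
    exact DFunLike.congr_fun h4 Φ
  intro Φ hΦ
  rw [key] at hΦ ⊢
  have h5 : aeval (R := S0) (fun v : Fin l × ℕ => B (b v.1, v.2)) (aeval θ Φ) = 0 := by
    refine (congrArg (fun g : Fin l × ℕ → ℂ => aeval (R := S0) g (aeval θ Φ)) ?_).trans hΦ
    funext v
    exact (hit _ _).symm
  rw [h3.eq_zero_of_aeval_eq_zero _ h5, map_zero]

theorem exists_uni {K : Type} [Field K] [Algebra K ℂ] [IsAlgClosed K] [Countable K] :
    ∃ δ : Derivation K ℂ ℂ, CK δ ∧ Uni δ := by
  classical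
  have hc0 : CharZero K := (algebraMap K ℂ).charZero
  obtain ⟨s, hs⟩ := exists_isTranscendenceBasis K ℂ
  have hsinf : Infinite s := by
    by_contra hfin
    rw [not_infinite_iff_finite] at hfin
    have hcs : Countable s := Finite.to_countable
    have h1 := hs.isAlgebraic
    rw [Subtype.range_val] at h1
    have h3 : #(Algebra.adjoin K s) ≤ ℵ₀ :=
      (Algebra.cardinalMk_adjoin_le K s).trans (sup_le (sup_le (Cardinal.mk_le_aleph0_iff.2 ‹_›)
        (Cardinal.mk_le_aleph0_iff.2 hcs)) le_rfl)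
    have h4 : #ℂ ≤ ℵ₀ := (Algebra.IsAlgebraic.cardinalMk_le_max (Algebra.adjoin K s) ℂ).trans
      (max_le h3 le_rfl)
    rw [Cardinal.mk_complex] at h4
    exact absurd h4 (not_le.2 Cardinal.aleph0_lt_continuum)
  obtain ⟨e⟩ : Nonempty (s ≃ s × ℕ) := by
    rw [← Cardinal.eq, Cardinal.mk_prod, Cardinal.lift_id, Cardinal.lift_id, Cardinal.mk_nat]
    exact (Cardinal.mul_aleph0_eq (Cardinal.aleph0_le_mk s)).symm
  let B : s × ℕ → ℂ := fun v => (e.symm v : s)
  have hB : IsTranscendenceBasis K B := hs.comp_equiv e.symm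
  obtain ⟨δ, hδ⟩ := exists_der_basis B hB fun v => B (v.1, v.2 + 1)
  refine ⟨δ, fun f hf => ?_, fun k l x => ?_⟩
  · have h1 := ker_shift B hB δ hδ hf
    have h2 := IsAlgClosed.degree_eq_one_of_irreducible K (minpoly.irreducible h1.isIntegral)
    exact minpoly.mem_range_of_degree_eq_one K f h2
  · -- a finite part of the basis over which `x` is algebraic
    have hfin : ∀ j : Fin k, ∃ I : Set s, I.Finite ∧
        IsAlgebraic (Algebra.adjoin K (B '' {v | v.1 ∈ I})) (x j) := by
      intro j
      have hx : x j ∈ (AlgebraicIndependent.matroid K ℂ).closure (range B) := by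
        rw [mem_cl]
        exact hB.isAlgebraic.isAlgebraic _
      obtain ⟨I, hIB, hIf, -, hI⟩ := Matroid.exists_mem_finite_closure_of_mem_closure hx
      refine ⟨Prod.fst '' (B ⁻¹' I), (hIf.preimage hB.1.injective.injOn).image _, ?_⟩
      rw [← mem_cl]
      refine (AlgebraicIndependent.matroid K ℂ).closure_subset_closure ?_ hI
      intro a ha
      obtain ⟨v, rfl⟩ := hIB ha
      exact ⟨v, ⟨v, ha, rfl⟩, rfl⟩
    choose I hIf hI using hfin
    let T : Set s := ⋃ j, I j
    have hTf : T.Finite := Set.finite_iUnion hIf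
    have hxT : ∀ j, IsAlgebraic (Algebra.adjoin K (B '' {v | v.1 ∈ T})) (x j) := by
      intro j
      rw [← mem_cl]
      refine (AlgebraicIndependent.matroid K ℂ).closure_subset_closure ?_ (mem_cl.2 (hI j))
      exact Set.image_mono fun v hv => Set.mem_iUnion.2 ⟨j, hv⟩
    have hinf : Infinite {a : s // a ∉ T} := (hTf.infinite_compl).to_subtype
    exact ⟨fun i => B ((Infinite.natEmbedding {a : s // a ∉ T} i : s), 0), fun y =>
      spz_of_basis B hB δ hδ T x hxT (fun i : Fin l => (Infinite.natEmbedding {a : s // a ∉ T} i : s))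
        (fun i => (Infinite.natEmbedding {a : s // a ∉ T} i).2)
        (fun i j h => Fin.ext ((Infinite.natEmbedding {a : s // a ∉ T}).injective (Subtype.ext h))) y⟩

end Pool.Agent.FNX
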