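import Mathlib
import Pool.Agent.FNX.Defs
import Pool.Agent.FN.Psi

set_option autoImplicit false

/-!
# Short relations over arbitrary numbers: the Wronskian
-/

namespace Pool.Agent.FNX

open MvPolynomial Pool.Agent.FN Pool.Agent.FN.PsiA

namespace PsiB

/-- a finite family has an independent subfamily with the same span -/
theorem sub0 {K V ι : Type} [Field K] [AddCommGroup V] [Module K V] [Finite ι] (v : ι → V) :
    ∃ (r : ℕ) (e : Fin r → ι), Function.Injective e ∧ LinearIndependent K (fun j => v (e j)) ∧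
      ∀ i, ∃ m : Fin r → K, ∑ j, m j • v (e j) = v i := by
  obtain ⟨κ, a, ha, hs, hi⟩ := exists_linearIndependent' K v
  have : Finite κ := Finite.of_injective a ha
  have : Fintype κ := Fintype.ofFinite κ
  obtain ⟨g⟩ : Nonempty (κ ≃ Fin (Fintype.card κ)) := ⟨Fintype.equivFin κ⟩
  refine ⟨Fintype.card κ, a ∘ g.symm, ha.comp g.symm.injective,
    hi.comp g.symm g.symm.injective, fun i => ?_⟩
  have h1 : v i ∈ Submodule.span K (Set.range (v ∘ a)) := by
    rw [hs]
    exact Submodule.subset_span ⟨i, rfl⟩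
  rw [Submodule.mem_span_range_iff_exists_fun] at h1
  obtain ⟨c, hc⟩ := h1
  refine ⟨fun j => c (g.symm j), ?_⟩
  rw [← hc]
  exact g.symm.sum_comp fun x => c x • v (a x)

variable {K L : Type} [Field K] [Field L] [Algebra K L]

theorem iter_smul (δ : Derivation K L L) (i : ℕ) (c : K) (a : L) :
    δ^[i] (c • a) = c • δ^[i] a := by
  induction i with
  | zero => rfl
  | succ i ih =>
    rw [Function.iterate_succ_apply', ih, Derivation.map_smul, Function.iterate_succ_apply']

theorem iter_sum (δ : Derivation K L L) (i : ℕ) {ι : Type} (s : Finset ι) (f : ι → L) :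
    δ^[i] (∑ α ∈ s, f α) = ∑ α ∈ s, δ^[i] (f α) := by
  induction i with
  | zero => rfl
  | succ i ih =>
    rw [Function.iterate_succ_apply', ih, map_sum]
    exact Finset.sum_congr rfl fun α _ => (Function.iterate_succ_apply' _ _ _).symm

theorem det_zero (δ : Derivation K L L) {r : ℕ} (w : Fin r → L) (d : Fin r → K) (hd : d ≠ 0)
    (h : ∑ j, d j • w j = 0) : (Matrix.of fun i j : Fin r => δ^[(i : ℕ)] (w j)).det = 0 := by
  rw [← Matrix.exists_mulVec_eq_zero_iff]
  refine ⟨fun j => algebraMap K L (d j), ?_, ?_⟩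
  · intro h0
    refine hd (funext fun j => ?_)
    exact (map_eq_zero _).1 (congrFun h0 j)
  · funext i
    simp only [Matrix.mulVec, dotProduct, Matrix.of_apply, Pi.zero_apply]
    have h3 := congrArg (δ^[(i : ℕ)]) h
    rw [iter_sum] at h3
    have h4 : δ^[(i : ℕ)] (0 : L) = 0 := by
      have := iter_smul δ (i : ℕ) 0 0
      rwa [zero_smul, zero_smul] at this
    rw [h4] at h3
    rw [← h3]
    refine Finset.sum_congr rfl fun j _ => ?_
    rw [iter_smul, Algebra.smul_def, mul_comm]

/-- the Wronskian of jet polynomials -/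
noncomputable def wr {n r : ℕ} (f : Fin r → MvPolynomial (Fin n × ℕ) K) :
    MvPolynomial (Fin n × ℕ) K :=
  (Matrix.of fun i j : Fin r => (dd K n)^[(i : ℕ)] (f j)).det

theorem aeval_wr {n r : ℕ} (δ : Derivation K L L) (y : Fin n → L)
    (f : Fin r → MvPolynomial (Fin n × ℕ) K) : aeval (jet δ y) (wr f) =
      (Matrix.of fun i j : Fin r => δ^[(i : ℕ)] (aeval (jet δ y) (f j))).det := by
  unfold wr
  rw [AlgHom.map_det]
  congr 1
  ext i j
  simp only [AlgHom.mapMatrix_apply, Matrix.map_apply, Matrix.of_apply]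
  exact aeval_dd_iter δ y i _

theorem wr_deg {n r : ℕ} (f : Fin r → MvPolynomial (Fin n × ℕ) K) (d : ℕ)
    (h : ∀ j, (f j).totalDegree ≤ d) : (wr f).totalDegree ≤ r * d := by
  unfold wr
  rw [Matrix.det_apply]
  refine totalDegree_finsetSum_le fun σ _ => ?_
  refine (totalDegree_smul_le _ _).trans ?_
  refine (totalDegree_finsetProd _ _).trans ?_
  calc ∑ j : Fin r, (Matrix.of (fun i j : Fin r => (dd K n)^[(i : ℕ)] (f j)) (σ j) j).totalDegree
      ≤ ∑ _j : Fin r, d := Finset.sum_le_sum fun j _ => (deg_dd_iter _ _).trans (h j)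
    _ = r * d := by simp

theorem wr_mem {n r o : ℕ} (f : Fin r → MvPolynomial (Fin n × ℕ) K)
    (h : ∀ j, f j ∈ Or K n o) : wr f ∈ Or K n (o + r) := by
  unfold wr
  rw [Matrix.det_apply]
  refine sum_mem fun σ _ => ?_
  refine zsmul_mem (prod_mem fun j _ => ?_) _
  exact Or_mono (Nat.add_le_add_left (Fin.is_lt _).le _) (dd_iter_mem (h _) _)

/-- partial evaluation at the jets of the first variables -/
noncomputable def th {k l : ℕ} (K : Type) {L : Type} [Field K] [Field L] [Algebra K L]
    (ξ : Fin k × ℕ → L) : MvPolynomial (Fin (k + l) × ℕ) K →ₐ[K] MvPolynomial (Fin l × ℕ) L :=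
  aeval fun v => Fin.addCases (motive := fun _ => MvPolynomial (Fin l × ℕ) L)
    (fun i => C (ξ (i, v.2))) (fun j => X (j, v.2)) v.1

theorem aeval_th {k l : ℕ} (δ : Derivation K L L) (x : Fin k → L) (y : Fin l → L)
    (P : MvPolynomial (Fin (k + l) × ℕ) K) :
    aeval (jet δ y) (th K (jet δ x) P) = aeval (jet δ (Fin.append x y)) P := by
  induction P using MvPolynomial.induction_on with
  | C a =>
    have h1 : th (l := l) K (jet δ x) (C a) = C (algebraMap K L a) := by
      unfold th
      rw [aeval_C]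
      rfl
    rw [h1, aeval_C, aeval_C]
    rfl
  | add P Q hP hQ => rw [map_add, map_add, map_add, hP, hQ]
  | mul_X P v hP =>
    rw [map_mul, map_mul, map_mul, hP]
    congr 1
    obtain ⟨i, a⟩ := v
    unfold th
    rw [aeval_X, aeval_X]
    refine Fin.addCases (fun i => ?_) (fun i => ?_) i
    · rw [Fin.addCases_left, aeval_C]
      simp [jet]
    · rw [Fin.addCases_right, aeval_X]
      simp [jet]

theorem th_X_deg {k l : ℕ} (ξ : Fin k × ℕ → L) (v : Fin (k + l) × ℕ) :
    (th K ξ (X v)).totalDegree ≤ 1 := by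
  obtain ⟨i, a⟩ := v
  unfold th
  rw [aeval_X]
  refine Fin.addCases (fun i => ?_) (fun i => ?_) i
  · rw [Fin.addCases_left, totalDegree_C]
    exact Nat.zero_le _
  · rw [Fin.addCases_right, totalDegree_X]

theorem th_deg {k l : ℕ} (ξ : Fin k × ℕ → L) (P : MvPolynomial (Fin (k + l) × ℕ) K) :
    (th (l := l) K ξ P).totalDegree ≤ P.totalDegree := by
  classical
  conv_lhs => rw [P.as_sum, map_sum]
  refine totalDegree_finsetSum_le fun m hm => ?_
  refine le_trans ?_ (le_totalDegree hm)
  rw [monomial_eq, map_mul, Finsupp.prod, map_prod]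
  refine (totalDegree_mul _ _).trans ?_
  have h1 : (th (l := l) K ξ (C (P.coeff m))).totalDegree = 0 := by
    have h2 : th (l := l) K ξ (C (P.coeff m)) = C (algebraMap K L (P.coeff m)) := by
      unfold th
      rw [aeval_C]
      rfl
    rw [h2, totalDegree_C]
  rw [h1, zero_add]
  refine (totalDegree_finsetProd _ _).trans ?_
  rw [Finsupp.sum]
  refine Finset.sum_le_sum fun v _ => ?_
  rw [map_pow]
  refine (totalDegree_pow _ _).trans ?_
  calc m v * (th (l := l) K ξ (X v)).totalDegree ≤ m v * 1 :=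
        Nat.mul_le_mul_left _ (th_X_deg ξ v)
    _ = m v := mul_one _

theorem th_mem {k l o : ℕ} (ξ : Fin k × ℕ → L) {P : MvPolynomial (Fin (k + l) × ℕ) K}
    (h : P ∈ Or K (k + l) o) : th K ξ P ∈ supported L {v : Fin l × ℕ | v.2 ≤ o} := by
  induction h using Algebra.adjoin_induction with
  | mem x hx =>
    obtain ⟨⟨i, a⟩, hv, rfl⟩ := hx
    unfold th
    rw [aeval_X]
    refine Fin.addCases (fun i => ?_) (fun i => ?_) i
    · rw [Fin.addCases_left]
      exact (supported L _).algebraMap_mem _
    · rw [Fin.addCases_right]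
      exact Algebra.subset_adjoin ⟨(i, a), hv, rfl⟩
  | algebraMap c =>
    have h2 : th (l := l) K ξ (algebraMap K _ c) = C (algebraMap K L c) := by
      rw [AlgHom.commutes]
      rfl
    rw [h2]
    exact (supported L _).algebraMap_mem _
  | add P Q _ _ hP hQ =>
    rw [map_add]
    exact add_mem hP hQ
  | mul P Q _ _ hP hQ =>
    rw [map_mul]
    exact mul_mem hP hQ

end PsiB

open PsiB

/-- One nonzero polynomial in the jets of `y`, of bounded degree and order, vanishes whenever a
relation of degree and order at most `D` holds at `(x, y)` which does not hold at `(x, z)`. -/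
theorem psiV (k l D : ℕ) : ∃ E r : ℕ, ∀ {K L : Type} [Field K] [Field L] [Algebra K L]
    [CharZero K] (δ : Derivation K L L), CK δ → ∀ (x : Fin k → L) (z : Fin l → L),
      (∀ y : Fin l → L, Spz δ (Fin.append x z) (Fin.append x y)) →
        ∃ Ψ : MvPolynomial (Fin l × ℕ) L, Ψ ≠ 0 ∧ Ψ.totalDegree ≤ E ∧ (∀ v ∈ Ψ.vars, v.2 < r) ∧
          ∀ y : Fin l → L, RelV δ D (Fin.append x z) (Fin.append x y) →
            aeval (jet δ y) Ψ = 0 := by
  classical
  refine ⟨Fintype.card (Ix (k + l) D) * ((k + l) * (D + 1) * D),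
    D + Fintype.card (Ix (k + l) D) + 1, ?_⟩
  intro K L _ _ _ _ δ hδ x z hsp
  obtain ⟨r, e, he, hi, hs⟩ := sub0 (K := K)
    (fun γ : Ix (k + l) D => aeval (jet δ (Fin.append x z)) (mo K γ))
  have hr : r ≤ Fintype.card (Ix (k + l) D) := by
    have := Fintype.card_le_of_injective e he
    rwa [Fintype.card_fin] at this
  choose m hm using hs
  refine ⟨th K (jet δ x) (wr fun j => mo K (e j)), ?_, ?_, ?_, ?_⟩
  · intro h0
    refine wr_ne_zero δ hδ _ hi ?_
    rw [← aeval_wr, ← aeval_th, h0, map_zero]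
  · refine (th_deg _ _).trans ((wr_deg _ _ fun j => mo_deg _).trans ?_)
    exact Nat.mul_le_mul_right _ hr
  · intro v hv
    have h1 := th_mem (jet δ x) (wr_mem (fun j => mo K (e j)) fun j => mo_mem (K := K) (e j))
    have h2 := (mem_supported.1 h1) (Finset.mem_coe.2 hv)
    have h3 : v.2 ≤ D + r := h2
    omega
  · rintro y ⟨Φ, ⟨hΦ1, hΦ2⟩, hΦ3, hΦ4⟩
    rw [aeval_th, aeval_wr]
    -- the relation in terms of the subfamily, at every specialization
    have hexp : ∀ q : Fin (k + l) → L, Spz δ (Fin.append x z) q →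
        aeval (jet δ q) Φ = ∑ j, (∑ γ, Φ.coeff (ex γ) * m γ j) • aeval (jet δ q) (mo K (e j)) := by
      intro q hq
      have h1 : ∀ γ : Ix (k + l) D, aeval (jet δ q) (mo K γ) =
          ∑ j, m γ j • aeval (jet δ q) (mo K (e j)) := by
        intro γ
        have h2 := hq (mo K γ - ∑ j, m γ j • mo K (e j)) (by
          rw [map_sub, map_sum, sub_eq_zero]
          simp only [map_smul]
          exact (hm γ).symm)
        rw [map_sub, map_sum, sub_eq_zero] at h2
        simp only [map_smul] at h2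
        exact h2
      conv_lhs => rw [expand Φ hΦ1 hΦ2, map_sum]
      simp only [map_smul]
      rw [Finset.sum_congr rfl fun γ _ => by rw [h1 γ, Finset.smul_sum]]
      rw [Finset.sum_comm]
      refine Finset.sum_congr rfl fun j _ => ?_
      rw [Finset.sum_smul]
      exact Finset.sum_congr rfl fun γ _ => by rw [smul_smul]
    refine det_zero δ _ (fun j => ∑ γ, Φ.coeff (ex γ) * m γ j) ?_ ?_
    · intro h0
      refine hΦ3 ?_
      rw [hexp _ (fun _ h => h)]
      refine Finset.sum_eq_zero fun j _ => ?_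
      have := congrFun h0 j
      simp only [Pi.zero_apply] at this
      rw [this, zero_smul]
    · rw [← hexp _ (hsp y)]
      exact hΦ4

end Pool.Agent.FNX
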