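import Pool.Agent.FN.Tup
import Pool.Agent.FNX.Prog2
import Pool.Agent.FNX.Psi2
import Pool.Agent.FNX.Der2

/-! # Short relations over arbitrary numbers: the density theorem -/

namespace Pool.Agent.FNX

open MvPolynomial Pool.Agent.FN

theorem mainV (k l s : ℕ) : ∃ (C : ℝ) (m X0 : ℕ), 0 < C ∧
    ∀ (x : Fin k → ℂ) (t : Fin l → ℂ) (X : ℕ), X0 ≤ X → ∀ N : Fin l → ℕ, (∀ i, X ≤ N i) →
      ({a : Fin l → ℕ | (∀ i, 1 ≤ a i ∧ a i ≤ N i) ∧
        ∃ L : List (MvPolynomial (Fin (k + l)) (algebraicClosure ℚ ℂ)), Prog L ∧ L.length ≤ s ∧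
          ∃ P ∈ L, (∃ y : Fin l → ℂ, aeval (Fin.append x y) P ≠ 0) ∧
            aeval (Fin.append x fun i => t i + ((Real.log (a i : ℝ) : ℝ) : ℂ)) P =
              0}.ncard : ℝ) ≤
        (∏ i, (N i : ℝ)) *
          (C * Real.log (Real.log X) ^ m * Real.exp (-Real.log (Real.log X))) := by
  classical
  obtain ⟨D, hD⟩ := progV (k + l) s
  obtain ⟨E, r, hEr⟩ := psiV k l D
  obtain ⟨C, m, X0, hC, h⟩ := cntl E r l
  refine ⟨C, m, X0, hC, fun x t X hX N hN => ?_⟩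
  have hcl : IsAlgClosed (algebraicClosure ℚ ℂ) := (algebraicClosure.isAlgClosure ℚ ℂ).isAlgClosed
  have hKc : Countable (algebraicClosure ℚ ℂ) := by
    have h1 : {x : ℂ | IsAlgebraic ℚ x}.Countable := Algebraic.countable ℚ ℂ
    exact (h1.mono fun c hc => mem_algebraicClosure_iff.1 hc).to_subtype
  obtain ⟨δ, hδ, hU⟩ := exists_uni (K := algebraicClosure ℚ ℂ)
  obtain ⟨z, hz⟩ := hU k l x
  obtain ⟨Ψ, hΨ0, hΨE, hΨr, hΨ⟩ := hEr δ hδ x z hz
  refine le_trans ?_ (h δ hδ Ψ hΨ0 hΨE hΨr t X hX N hN)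
  rw [Nat.cast_le]
  refine Set.ncard_le_ncard ?_ ?_
  · rintro a ⟨ha, L, hL, hLs, P, hP, ⟨y0, hy0⟩, h0⟩
    refine ⟨ha, ?_⟩
    have hPz : aeval (Fin.append x z) P ≠ 0 := by
      intro h1
      apply hy0
      have h2 := hz y0 (up P) (by rw [aeval_jet_up]; exact h1)
      rwa [aeval_jet_up] at h2
    have h3 := hΨ _ (hD δ hδ _ _ (hz _) L hL hLs P hP hPz h0)
    rw [← h3, aeval_def, Algebra.algebraMap_self, eval₂_id]
  · refine (Set.Finite.subset (Fintype.piFinset fun i => Finset.Icc 1 (N i)).finite_toSet ?_)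
    rintro a ⟨ha, -⟩
    rw [Finset.mem_coe, Fintype.mem_piFinset]
    exact fun i => Finset.mem_Icc.2 (ha i)

end Pool.Agent.FNX
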