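import Pool.Agent.FN.ProgC
import Pool.Agent.FNX.Main2

/-! # Short relations over arbitrary numbers: final form -/

namespace Pool.Agent.FNX

open MvPolynomial Pool.Agent.FN

/-- a relation computed by a program of length `≤ s`, which is no identity in `y` -/
def BadX (s : ℕ) {k l : ℕ} (x : Fin k → ℂ) (y : Fin l → ℂ) : Prop :=
  ∃ p : List (MvPolynomial (Fin (k + l)) ℂ), Program p ∧ p.length ≤ s ∧
    ∃ P ∈ p, (∃ y' : Fin l → ℂ, eval (Fin.append x y') P ≠ 0) ∧ eval (Fin.append x y) P = 0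

/-- one differential polynomial for all relations -/
theorem key2 (k l s : ℕ) : ∃ E r : ℕ, ∀ x : Fin k → ℂ,
    ∃ δ : Derivation KA ℂ ℂ, CK δ ∧ ∃ Ψ : MvPolynomial (Fin l × ℕ) ℂ, Ψ ≠ 0 ∧
      Ψ.totalDegree ≤ E ∧ (∀ v ∈ Ψ.vars, v.2 < r) ∧
        ∀ y : Fin l → ℂ, BadX s x y → eval (jet δ y) Ψ = 0 := by
  obtain ⟨D, hD⟩ := progV (k + l) s
  obtain ⟨E, r, hEr⟩ := psiV k l D
  refine ⟨E, r, fun x => ?_⟩
  have := isAlgClosed_KA
  have := countable_KA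
  obtain ⟨δ, hδ, hU⟩ := exists_uni (K := KA)
  obtain ⟨z, hz⟩ := hU k l x
  obtain ⟨Ψ, hΨ0, hΨE, hΨr, hΨ⟩ := hEr δ hδ x z hz
  refine ⟨δ, hδ, Ψ, hΨ0, hΨE, hΨr, fun y hy => ?_⟩
  obtain ⟨p, hp, hps, P, hP, ⟨y', hy'⟩, h0⟩ := hy
  obtain ⟨q, Q, hq, hqs, hQ, hQP⟩ := hp.exists_lift hps hP
  have hev : ∀ w : Fin (k + l) → ℂ, eval w P = aeval w Q := by
    intro w
    rw [← hQP, eval_map, aeval_def]
  rw [hev] at hy' h0
  have hPz : aeval (Fin.append x z) Q ≠ 0 := by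
    intro h1
    apply hy'
    have h2 := hz y' (up Q) (by rw [aeval_jet_up]; exact h1)
    rwa [aeval_jet_up] at h2
  have h3 := hΨ _ (hD δ hδ _ _ (hz _) q hq hqs Q hQ hPz h0)
  rw [← h3, aeval_def, Algebra.algebraMap_self, eval₂_id]

/-- the constants -/
theorem conv (C : ℝ) (m X0 : ℕ) : ∃ C' : ℕ, ∀ X : ℕ, 16 ≤ X →
    C * Real.log (Real.log X) ^ m * Real.exp (-Real.log (Real.log X)) ≤
      C' * Real.log (Real.log X) ^ C' / Real.log X ∧
    (X < X0 → 1 ≤ C' * Real.log (Real.log X) ^ C' / Real.log X) := by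
  obtain ⟨C', hC'⟩ := exists_nat_ge (max C (max (m : ℝ) (Real.log X0)))
  have h1 : C ≤ C' := (le_max_left _ _).trans hC'
  have h2 : m ≤ C' := by
    have : (m : ℝ) ≤ C' := (le_max_left _ _).trans ((le_max_right _ _).trans hC')
    exact_mod_cast this
  have h3 : Real.log X0 ≤ C' := (le_max_right _ _).trans ((le_max_right _ _).trans hC')
  refine ⟨C', fun X hX => ?_⟩
  have hX16 : (16 : ℝ) ≤ X := by exact_mod_cast hX
  have hXp : (0 : ℝ) < X := by linarith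
  have h16 : Real.exp 1 ≤ Real.log X := by
    have g1 : Real.log 16 ≤ Real.log X := Real.log_le_log (by norm_num) hX16
    have g2 : Real.log 16 = 4 * Real.log 2 := by
      rw [show (16 : ℝ) = 2 ^ 4 by norm_num, Real.log_pow]
      norm_num
    have g3 := Real.log_two_gt_d9
    have g4 := Real.exp_one_lt_d9
    linarith
  have hlog : 0 < Real.log X := lt_of_lt_of_le (Real.exp_pos 1) h16
  have hll : 1 ≤ Real.log (Real.log X) := by
    rw [Real.le_log_iff_exp_le hlog]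
    exact h16
  refine ⟨?_, fun hXX => ?_⟩
  · rw [Real.exp_neg, Real.exp_log hlog, ← div_eq_mul_inv]
    have g1 : Real.log (Real.log X) ^ m ≤ Real.log (Real.log X) ^ C' := pow_le_pow_right₀ hll h2
    have g2 : C * Real.log (Real.log X) ^ m ≤ C' * Real.log (Real.log X) ^ C' :=
      (mul_le_mul_of_nonneg_right h1 (by positivity)).trans
        (mul_le_mul_of_nonneg_left g1 (Nat.cast_nonneg _))
    exact div_le_div_of_nonneg_right g2 hlog.le
  · have g1 : Real.log X ≤ C' :=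
      (Real.log_le_log hXp (by exact_mod_cast hXX.le)).trans h3
    have g2 : 1 ≤ Real.log (Real.log X) ^ C' := one_le_pow₀ hll
    rw [le_div_iff₀ hlog, one_mul]
    exact g1.trans (le_mul_of_one_le_right (Nat.cast_nonneg _) g2)

theorem few_two (k l s : ℕ) : ∃ C : ℕ, ∀ (x : Fin k → ℂ) (t : Fin l → ℂ) (X : ℕ), 16 ≤ X →
    ∀ N : Fin l → ℕ, (∀ i, X ≤ N i) →
      ({a : Fin l → ℕ | (∀ i, 1 ≤ a i ∧ a i ≤ N i) ∧
        BadX s x fun i => t i + ((Real.log (a i : ℝ) : ℝ) : ℂ)}.ncard : ℝ) ≤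
          C * Real.log (Real.log X) ^ C / Real.log X * ∏ i, (N i : ℝ) := by
  classical
  obtain ⟨E, r, hk⟩ := key2 k l s
  obtain ⟨C, m, X0, hC, hc⟩ := cntl E r l
  obtain ⟨C', hC'⟩ := conv C m X0
  refine ⟨C', fun x t X hX N hN => ?_⟩
  obtain ⟨h1, h2⟩ := hC' X hX
  have hprod : (0 : ℝ) ≤ ∏ i, (N i : ℝ) := Finset.prod_nonneg fun i _ => Nat.cast_nonneg _
  have hbox : ∀ p : (Fin l → ℕ) → Prop,
      {a : Fin l → ℕ | (∀ i, 1 ≤ a i ∧ a i ≤ N i) ∧ p a} ⊆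
        ((Fintype.piFinset fun i => Finset.Icc 1 (N i) : Finset (Fin l → ℕ)) : Set (Fin l → ℕ)) := by
    rintro p a ⟨ha, -⟩
    rw [Finset.mem_coe, Fintype.mem_piFinset]
    exact fun i => Finset.mem_Icc.2 (ha i)
  rcases lt_or_ge X X0 with hXX | hXX
  · have h3 := Set.ncard_le_ncard (hbox fun a => BadX s x fun i =>
      t i + ((Real.log (a i : ℝ) : ℝ) : ℂ)) (Finset.finite_toSet _)
    rw [Set.ncard_coe_finset, Fintype.card_piFinset] at h3
    simp only [Nat.card_Icc, Nat.add_sub_cancel] at h3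
    have h4 : ({a : Fin l → ℕ | (∀ i, 1 ≤ a i ∧ a i ≤ N i) ∧
        BadX s x fun i => t i + ((Real.log (a i : ℝ) : ℝ) : ℂ)}.ncard : ℝ) ≤ ∏ i, (N i : ℝ) := by
      rw [← Nat.cast_prod]
      exact_mod_cast h3
    exact h4.trans (le_mul_of_one_le_left hprod (h2 hXX))
  · obtain ⟨δ, hδ, Ψ, h0, hE, hr, h⟩ := hk x
    have h3 := hc δ hδ Ψ h0 hE hr t X hXX N hN
    have h4 : ({a : Fin l → ℕ | (∀ i, 1 ≤ a i ∧ a i ≤ N i) ∧
        BadX s x fun i => t i + ((Real.log (a i : ℝ) : ℝ) : ℂ)}.ncard : ℝ) ≤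
        ({a : Fin l → ℕ | (∀ i, 1 ≤ a i ∧ a i ≤ N i) ∧ eval (jet δ fun i =>
          t i + ((Real.log (a i : ℝ) : ℝ) : ℂ)) Ψ = 0}.ncard : ℝ) := by
      rw [Nat.cast_le]
      exact Set.ncard_le_ncard (fun a ha => ⟨ha.1, h _ ha.2⟩)
        ((Finset.finite_toSet _).subset (hbox _))
    refine h4.trans (h3.trans ?_)
    rw [mul_comm]
    exact mul_le_mul_of_nonneg_right h1 hprod

end Pool.Agent.FNX
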